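import Pool.Agent.J4H66.HN.Rich

/-! Project HN (MP_54bae5_nt): CMB. -/

set_option autoImplicit false

namespace Pool.Agent.J4H66.HN

open Finset Pool.Agent.J4H93.HN

theorem R_union_le (A B : Finset ℕ) : R (A ∪ B) ≤ R A + R B := by
  have hs : R (A ∪ B) + R (A ∩ B) = R A + R B := by
    unfold R
    exact Finset.sum_union_inter
  have := R_nonneg (A ∩ B)
  linarith

theorem R_biUnion_le (s : Finset ℕ) (f : ℕ → Finset ℕ) :
    R (s.biUnion f) ≤ ∑ x ∈ s, R (f x) := by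
  classical
  induction s using Finset.induction_on with
  | empty => simp [R]
  | insert a s ha ih =>
    rw [Finset.biUnion_insert, Finset.sum_insert ha]
    have := R_union_le (f a) (s.biUnion f)
    linarith

theorem t_CMB (hSZ : S_SZ) (hL : S_LIGHT) (hPo : S_POOR) (hRi : S_RICH) : S_CMB := by
  intro Y k P0 P1 τ hP B hBS hBne hpru h hh hbad
  have hY := hP.hY
  have hYr : (10:ℝ)^6 ≤ Y := by exact_mod_cast hY
  have hY1 : (1:ℝ) < Y := by
    have : (1:ℝ) < 10 ^ 6 := by norm_num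
    linarith
  have hY0 : (0:ℝ) < Y := by linarith
  have hτ0 : 0 < τ := lt_of_lt_of_le (by positivity) hP.tau
  have sz := hSZ Y k P0 P1 τ hP
  have hk := hP.k2
  have hppr : ∀ p ∈ P0 ∪ P1, p.Prime ∧ p ≤ Y ^ 30 := by
    intro p hp
    rw [Finset.mem_union] at hp
    rcases hp with hp | hp
    · obtain ⟨h1, h2⟩ := hP.p0 p hp
      refine ⟨h1, ?_⟩
      calc p = p ^ 1 := (pow_one p).symm
        _ ≤ p ^ k := Nat.pow_le_pow_right h1.pos (by omega)
        _ ≤ Y ^ 30 := h2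
    · obtain ⟨h1, _, h3⟩ := hP.p1 p hp
      exact ⟨h1, h3⟩
  have key : ∀ p ∈ P0 ∪ P1, (Mu B p).Nonempty →
      ∃ x ∈ II Y h, p ∣ x ∧ 3 / 5 * R P0 ≤ R (Dv P0 x) := by
    intro p hp hne
    by_contra hcon
    push Not at hcon
    obtain ⟨hpp, hpY⟩ := hppr p hp
    have hpos : (0:ℝ) < p := by exact_mod_cast hpp.pos
    have hpYr : (p:ℝ) ≤ (Y:ℝ) ^ 30 := by exact_mod_cast hpY
    have hcov : Mu B p ⊆ Bad B Y h ∪ (II Y h).biUnion (fun x => Mu (Dv (SS P0 P1 k) x) p) := by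
      intro n hn
      simp only [Mu, Finset.mem_filter] at hn
      rw [Finset.mem_union, Finset.mem_biUnion]
      by_cases hb : ∀ x ∈ II Y h, ¬ n ∣ x
      · left
        simp only [Bad, Finset.mem_filter]
        exact ⟨hn.1, hb⟩
      · right
        push Not at hb
        obtain ⟨x, hx, hnx⟩ := hb
        refine ⟨x, hx, ?_⟩
        simp only [Mu, Dv, Finset.mem_filter]
        exact ⟨⟨hBS hn.1, hnx⟩, hn.2⟩
    have h1 : R (Mu B p) ≤ R (Bad B Y h) + ∑ x ∈ II Y h, R (Mu (Dv (SS P0 P1 k) x) p) := by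
      have e1 := R_mono hcov
      have e2 := R_union_le (Bad B Y h) ((II Y h).biUnion (fun x => Mu (Dv (SS P0 P1 k) x) p))
      have e3 := R_biUnion_le (II Y h) (fun x => Mu (Dv (SS P0 P1 k) x) p)
      linarith
    have h2 : R (Bad B Y h) ≤ (Y:ℝ) ^ 271 * (1 / (Y:ℝ) ^ 319) := by
      have e1 : R (Bad B Y h) ≤ ∑ n ∈ Bad B Y h, 1 / (Y:ℝ) ^ 319 := by
        unfold R
        apply Finset.sum_le_sum
        intro n hn
        simp only [Bad, Finset.mem_filter] at hn
        have hn1 := (sz n (hBS hn.1)).1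
        have hn2 : (Y:ℝ) ^ 319 ≤ (n:ℝ) := by exact_mod_cast hn1
        exact one_div_le_one_div_of_le (by positivity) hn2
      rw [Finset.sum_const, nsmul_eq_mul] at e1
      have hb' : ((Bad B Y h).card : ℝ) ≤ (Y:ℝ) ^ 271 := by exact_mod_cast hbad.le
      have := mul_le_mul_of_nonneg_right hb' (show (0:ℝ) ≤ 1 / (Y:ℝ) ^ 319 by positivity)
      linarith
    have h3 : ∑ x ∈ II Y h, R (Mu (Dv (SS P0 P1 k) x) p) ≤ τ / (8 * (Y:ℝ) ^ 30) + τ / (8 * (p:ℝ)) := by
      have e1 : ∑ x ∈ II Y h, R (Mu (Dv (SS P0 P1 k) x) p) ≤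
          ∑ x ∈ (II Y h).filter (fun x => R (Dv P1 x) ≤ 1 / (Y : ℝ) ^ 14), R (Dv (SS P0 P1 k) x) +
          ∑ x ∈ (II Y h).filter (fun x => 1 / (Y : ℝ) ^ 14 < R (Dv P1 x) ∧
            R (Dv P0 x) < 3 / 5 * R P0), R (Mu (Dv (SS P0 P1 k) x) p) := by
        rw [Finset.sum_filter, Finset.sum_filter, ← Finset.sum_add_distrib]
        apply Finset.sum_le_sum
        intro x hx
        have n1 := R_nonneg (Mu (Dv (SS P0 P1 k) x) p)
        have n2 := R_nonneg (Dv (SS P0 P1 k) x)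
        by_cases c1 : R (Dv P1 x) ≤ 1 / (Y : ℝ) ^ 14
        · rw [if_pos c1]
          have m1 : R (Mu (Dv (SS P0 P1 k) x) p) ≤ R (Dv (SS P0 P1 k) x) :=
            R_mono (Finset.filter_subset _ _)
          split_ifs <;> linarith
        · rw [if_neg c1]
          by_cases c2 : R (Dv P0 x) < 3 / 5 * R P0
          · rw [if_pos ⟨not_le.mp c1, c2⟩]
            linarith
          · have hpx : ¬ p ∣ x := by
              intro hd
              have := hcon x hx hd
              linarith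
            have hem : Mu (Dv (SS P0 P1 k) x) p = ∅ := by
              apply Finset.eq_empty_of_forall_notMem
              intro n hn
              simp only [Mu, Dv, Finset.mem_filter] at hn
              exact hpx (hn.2.trans hn.1.2)
            rw [hem]
            have : R ∅ = 0 := by simp [R]
            rw [this]
            simp
      have e2 := hL Y k P0 P1 τ hP h hh
      have e3 := hPo Y k P0 P1 τ hP h hh p hp
      linarith
    have h4 := hpru p hp hne
    -- numbers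
    have g1 : τ / (8 * (Y:ℝ) ^ 30) ≤ τ / (8 * (p:ℝ)) := by
      apply div_le_div_of_nonneg_left hτ0.le (by positivity)
      linarith
    have g2 : τ / (8 * (p:ℝ)) = (τ / p) / 8 := by
      field_simp
    have g3 : (1:ℝ) / (Y:ℝ) ^ 31 ≤ τ / p := by
      have a1 : (1 / (Y:ℝ)) / (Y:ℝ) ^ 30 ≤ τ / p := by
        apply div_le_div₀ hτ0.le hP.tau hpos hpYr
      have a2 : (1 / (Y:ℝ)) / (Y:ℝ) ^ 30 = 1 / (Y:ℝ) ^ 31 := by
        rw [div_div, ← pow_succ']
      linarith
    have g4 : (Y:ℝ) ^ 271 * (1 / (Y:ℝ) ^ 319) = 1 / (Y:ℝ) ^ 48 := by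
      rw [mul_one_div]
      rw [div_eq_div_iff (by positivity) (by positivity), one_mul, ← pow_add]
    have g5 : (1:ℝ) / (Y:ℝ) ^ 48 ≤ (1 / 2) * (1 / (Y:ℝ) ^ 31) := by
      have b1 : (Y:ℝ) ^ 48 = (Y:ℝ) ^ 31 * (Y:ℝ) ^ 17 := by rw [← pow_add]
      have b2 : (2:ℝ) ≤ (Y:ℝ) ^ 17 := by
        have : (Y:ℝ) ^ 1 ≤ (Y:ℝ) ^ 17 := pow_le_pow_right₀ hY1.le (by norm_num)
        rw [pow_one] at this
        have : (2:ℝ) ≤ 10 ^ 6 := by norm_num
        linarith
      rw [b1, one_div, mul_inv, one_div, one_div]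
      rw [mul_comm]
      apply mul_le_mul_of_nonneg_right _ (by positivity)
      exact inv_anti₀ (by norm_num) b2
    have g6 : (0:ℝ) < 1 / (Y:ℝ) ^ 31 := by positivity
    linarith
  -- the end
  obtain ⟨n0, hn0⟩ := hBne
  have hn0' := sz n0 (hBS hn0)
  have hYn : 1 < Y := by omega
  have hn01 : n0 ≠ 1 := by
    have : 1 < Y ^ 319 := Nat.one_lt_pow (by norm_num) hYn
    omega
  obtain ⟨p0, hp0, hp0n⟩ := Nat.exists_prime_and_dvd hn01
  obtain ⟨x, hx, hpx, hxr⟩ := key p0 (hn0'.2.2.2 p0 hp0 hp0n)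
    ⟨n0, by simp only [Mu, Finset.mem_filter]; exact ⟨hn0, hp0n⟩⟩
  refine ⟨x, hx, ?_⟩
  intro n hn
  obtain ⟨_, _, hsq, hpr⟩ := sz n (hBS hn)
  rw [← Nat.prod_primeFactors_of_squarefree hsq]
  apply Finset.prod_primes_dvd
  · intro q hq
    exact (Nat.prime_of_mem_primeFactors hq).prime
  · intro q hq
    have hqp := Nat.prime_of_mem_primeFactors hq
    have hqn := Nat.dvd_of_mem_primeFactors hq
    obtain ⟨x', hx', hqx', hxr'⟩ := key q (hpr q hqp hqn)
      ⟨n, by simp only [Mu, Finset.mem_filter]; exact ⟨hn, hqn⟩⟩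
    have := hRi Y k P0 P1 τ hP h hh x hx x' hx' hxr hxr'
    rw [this]
    exact hqx'

end Pool.Agent.J4H66.HN
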