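import Pool.Agent.J4H93.HN.Stm

/-! Project HN (MP_54bae5_nt): RICH and PRU. -/

set_option autoImplicit false

namespace Pool.Agent.J4H66.HN

open Finset Pool.Agent.J4H93.HN

theorem R_mono {A B : Finset ℕ} (h : A ⊆ B) : R A ≤ R B := by
  unfold R
  exact Finset.sum_le_sum_of_subset_of_nonneg h (fun i _ _ => by positivity)

theorem R_nonneg (A : Finset ℕ) : 0 ≤ R A := by
  unfold R
  exact Finset.sum_nonneg (fun i _ => by positivity)

theorem t_RICH : S_RICH := by
  intro Y k P0 P1 τ hP h hh x hx x' hx' h1 h2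
  by_contra hne
  wlog hlt : x < x' generalizing x x'
  · exact this x' hx' x hx h2 h1 (fun e => hne e.symm) (by omega)
  have hd0 : 0 < x' - x := by omega
  have hI : II Y h = Finset.Icc (h - Y ^ 240) (h + Y ^ 240) := rfl
  rw [hI, Finset.mem_Icc] at hx hx'
  obtain ⟨N, hN⟩ : ∃ N : ℕ, N = Y ^ 240 := ⟨_, rfl⟩
  rw [← hN] at hx hx' hh
  have hd1 : x' - x ≤ 2 * Y ^ 240 := by rw [← hN]; omega
  have hf := hP.few (x' - x) hd0 hd1
  have hsub : Dv P0 x ∩ Dv P0 x' ⊆ Dv P0 (x' - x) := by
    intro p hp
    simp only [Dv, Finset.mem_inter, Finset.mem_filter] at hp ⊢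
    exact ⟨hp.1.1, Nat.dvd_sub hp.2.2 hp.1.2⟩
  have hu : Dv P0 x ∪ Dv P0 x' ⊆ P0 := by
    intro p hp
    simp only [Dv, Finset.mem_union, Finset.mem_filter] at hp
    rcases hp with hp | hp <;> exact hp.1
  have hs : R (Dv P0 x ∪ Dv P0 x') + R (Dv P0 x ∩ Dv P0 x') = R (Dv P0 x) + R (Dv P0 x') := by
    unfold R
    exact Finset.sum_union_inter
  have a1 := R_mono hsub
  have a2 := R_mono hu
  linarith

theorem pru_aux (A Q : Finset ℕ) (τ : ℝ) (hτ : 0 ≤ τ) : ∀ m : ℕ, ∀ B ⊆ A, B.card ≤ m →
    R A - τ * R (Q.filter (fun p => Mu B p = ∅)) ≤ R B →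
    ∃ B' ⊆ A, R A - τ * R Q ≤ R B' ∧ ∀ p ∈ Q, (Mu B' p).Nonempty → τ / p ≤ R (Mu B' p) := by
  intro m
  induction m with
  | zero =>
    intro B hBA hc hR
    have hB : B = ∅ := Finset.card_eq_zero.mp (by omega)
    refine ⟨B, hBA, ?_, ?_⟩
    · have := mul_le_mul_of_nonneg_left (R_mono (Finset.filter_subset (fun p => Mu B p = ∅) Q)) hτ
      linarith
    · intro p hp hn
      subst hB
      simp [Mu] at hn
  | succ m ih =>
    intro B hBA hc hR
    by_cases hall : ∀ p ∈ Q, (Mu B p).Nonempty → τ / p ≤ R (Mu B p)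
    · refine ⟨B, hBA, ?_, hall⟩
      have := mul_le_mul_of_nonneg_left (R_mono (Finset.filter_subset (fun p => Mu B p = ∅) Q)) hτ
      linarith
    · push Not at hall
      obtain ⟨p, hp, hn, hlt⟩ := hall
      have hsub : Mu B p ⊆ B := Finset.filter_subset _ _
      have hsd : R (B \ Mu B p) + R (Mu B p) = R B := by
        unfold R
        exact Finset.sum_sdiff hsub
      have hcard : (B \ Mu B p).card + (Mu B p).card = B.card :=
        Finset.card_sdiff_add_card_eq_card hsub
      have hpos := hn.card_pos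
      apply ih (B \ Mu B p) (Finset.sdiff_subset.trans hBA) (by omega)
      have hss : insert p (Q.filter (fun p => Mu B p = ∅)) ⊆
          Q.filter (fun q => Mu (B \ Mu B p) q = ∅) := by
        intro q hq
        rw [Finset.mem_insert] at hq
        rw [Finset.mem_filter]
        rcases hq with rfl | hq
        · refine ⟨hp, ?_⟩
          apply Finset.eq_empty_of_forall_notMem
          intro n hn'
          simp only [Mu, Finset.mem_filter, Finset.mem_sdiff, not_and] at hn'
          exact hn'.1.2 hn'.1.1 hn'.2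
        · rw [Finset.mem_filter] at hq
          refine ⟨hq.1, ?_⟩
          apply Finset.eq_empty_of_forall_notMem
          intro n hn'
          have : n ∈ Mu B q := by
            simp only [Mu, Finset.mem_filter, Finset.mem_sdiff] at hn' ⊢
            exact ⟨hn'.1.1, hn'.2⟩
          rw [hq.2] at this
          exact Finset.notMem_empty _ this
      have hnot : p ∉ Q.filter (fun p => Mu B p = ∅) := by
        rw [Finset.mem_filter]
        rintro ⟨_, he⟩
        rw [he] at hn
        exact Finset.not_nonempty_empty hn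
      have hRi : R (insert p (Q.filter (fun p => Mu B p = ∅))) =
          1 / (p:ℝ) + R (Q.filter (fun p => Mu B p = ∅)) := by
        unfold R
        exact Finset.sum_insert hnot
      have h3 := mul_le_mul_of_nonneg_left (R_mono hss) hτ
      rw [hRi] at h3
      have h4 : τ * (1 / (p:ℝ) + R (Q.filter (fun p => Mu B p = ∅))) =
          τ / p + τ * R (Q.filter (fun p => Mu B p = ∅)) := by ring
      linarith

theorem t_PRU : S_PRU := by
  intro A Q τ hτ
  refine pru_aux A Q τ hτ A.card A (Finset.Subset.refl _) le_rfl ?_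
  have := mul_nonneg hτ (R_nonneg (Q.filter (fun p => Mu A p = ∅)))
  linarith

end Pool.Agent.J4H66.HN
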